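import Mathlib

/-!
# MP_103a5c SimpleZeros v2, block JF2: Young's inequality for the kernel `1/(c + i u)^3`
-/

set_option autoImplicit false

open Complex MeasureTheory Filter Topology Set

namespace Pool.Agent.H91.SZ2

/-- the majorant of the kernel -/
noncomputable def kap (c u : ℝ) : ℝ := |c|⁻¹ * (c ^ 2 + u ^ 2)⁻¹

theorem kap_nonneg (c u : ℝ) : 0 ≤ kap c u := by unfold kap; positivity

theorem kap_even (c u : ℝ) : kap c (-u) = kap c u := by unfold kap; rw [neg_sq]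

theorem kap_eq {c : ℝ} (hc : c ≠ 0) (u : ℝ) : kap c u = |c|⁻¹ ^ 3 * (1 + (u / |c|) ^ 2)⁻¹ := by
  have h1 : 0 < |c| := abs_pos.2 hc
  have h2 : c ^ 2 = |c| ^ 2 := (sq_abs c).symm
  have h3 : |c| ^ 2 + u ^ 2 ≠ 0 := by positivity
  unfold kap
  rw [h2]
  have h4 : 1 + (u / |c|) ^ 2 = (|c| ^ 2 + u ^ 2) / |c| ^ 2 := by
    field_simp
  rw [h4]
  field_simp

theorem kap_continuous {c : ℝ} (hc : c ≠ 0) : Continuous (kap c) := by
  unfold kap
  refine continuous_const.mul (Continuous.inv₀ (by fun_prop) fun u => ?_)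
  positivity

theorem kap_integrable {c : ℝ} (hc : c ≠ 0) : Integrable (kap c) := by
  have h1 : 0 < |c| := abs_pos.2 hc
  have h2 : kap c = fun u => |c|⁻¹ ^ 3 * (1 + (u / |c|) ^ 2)⁻¹ := funext fun u => kap_eq hc u
  rw [h2]
  exact (integrable_inv_one_add_sq.comp_div h1.ne').const_mul _

theorem kap_integral {c : ℝ} (hc : c ≠ 0) : ∫ u : ℝ, kap c u = Real.pi / c ^ 2 := by
  have h1 : 0 < |c| := abs_pos.2 hc
  have h2 : kap c = fun u => |c|⁻¹ ^ 3 * (1 + (u / |c|) ^ 2)⁻¹ := funext fun u => kap_eq hc u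
  have h3 := Measure.integral_comp_div (fun u : ℝ => (1 + u ^ 2)⁻¹) |c|
  rw [h2, integral_const_mul, h3, integral_univ_inv_one_add_sq, abs_abs, smul_eq_mul, ← sq_abs c]
  field_simp

/-- weighted Cauchy-Schwarz -/
theorem cs {κ h : ℝ → ℝ} {m : ℝ} (hκ : ∀ t, 0 ≤ κ t) (hm : 0 < m) (i0 : Integrable κ) (im : ∫ t, κ t = m)
    (i1 : Integrable fun t => κ t * h t) (i2 : Integrable fun t => κ t * h t ^ 2) :
    (∫ t, κ t * h t) ^ 2 ≤ m * ∫ t, κ t * h t ^ 2 := by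
  set a : ℝ := ∫ t, κ t * h t with ha
  set b : ℝ := ∫ t, κ t * h t ^ 2 with hb
  have h1 : 0 ≤ ∫ t, κ t * (h t - a / m) ^ 2 := integral_nonneg fun t => mul_nonneg (hκ t) (sq_nonneg _)
  have h2 : ∫ t, κ t * (h t - a / m) ^ 2 = b - 2 * (a / m) * a + (a / m) ^ 2 * m := by
    have h3 : (fun t => κ t * (h t - a / m) ^ 2) = fun t =>
        κ t * h t ^ 2 - 2 * (a / m) * (κ t * h t) + (a / m) ^ 2 * κ t := by
      funext t; ring
    have i3 : Integrable fun t => κ t * h t ^ 2 - 2 * (a / m) * (κ t * h t) := i2.sub (i1.const_mul _)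
    rw [h3, integral_add i3 (i0.const_mul _), integral_sub i2 (i1.const_mul _),
      integral_const_mul, integral_const_mul, im]
  rw [h2] at h1
  have h4 : b - 2 * (a / m) * a + (a / m) ^ 2 * m = b - a ^ 2 / m := by
    field_simp
    ring
  rw [h4] at h1
  have h5 : a ^ 2 / m ≤ b := by linarith
  rw [div_le_iff₀ hm] at h5
  linarith [mul_comm b m]

/-- the kernel at height `g` -/
theorem ker_norm {c : ℝ} (hc : c ≠ 0) (t g : ℝ) :
    ‖(((c : ℂ) + (t : ℂ) * I - (g : ℂ) * I) ^ 3)⁻¹‖ ≤ kap c (g - t) := by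
  have e : (c : ℂ) + (t : ℂ) * I - (g : ℂ) * I = (c : ℂ) + ((t - g : ℝ) : ℂ) * I := by push_cast; ring
  have h1 : ‖(c : ℂ) + ((t - g : ℝ) : ℂ) * I‖ ^ 2 = c ^ 2 + (t - g) ^ 2 := by
    rw [← Complex.normSq_eq_norm_sq, Complex.normSq_add_mul_I]
  have h2 : |c| ≤ ‖(c : ℂ) + ((t - g : ℝ) : ℂ) * I‖ := by
    have h3 := Complex.abs_re_le_norm ((c : ℂ) + ((t - g : ℝ) : ℂ) * I)
    simpa using h3
  have h0 : 0 < |c| := abs_pos.2 hc
  rw [e, norm_inv, norm_pow, pow_succ, h1]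
  unfold kap
  rw [← mul_inv]
  have h4 : (g - t) ^ 2 = (t - g) ^ 2 := by ring
  rw [h4, mul_comm (c ^ 2 + (t - g) ^ 2)]
  exact inv_anti₀ (by positivity) (mul_le_mul_of_nonneg_right h2 (by positivity))

theorem den_ne {c : ℝ} (hc : c ≠ 0) (t g : ℝ) : (c : ℂ) + (t : ℂ) * I - (g : ℂ) * I ≠ 0 := by
  intro h
  have h1 := congrArg Complex.re h
  simp at h1
  exact hc h1

theorem kap_bdd {c : ℝ} (u : ℝ) : kap c u ≤ |c|⁻¹ * (c ^ 2)⁻¹ := by
  unfold kap
  rcases eq_or_ne c 0 with rfl | hc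
  · simp
  · exact mul_le_mul_of_nonneg_left (inv_anti₀ (by positivity) (by nlinarith [sq_nonneg u])) (by positivity)

open scoped Convolution in
/-- **Young's inequality** for the kernel `(c + i t - i γ)^(-3)`. -/
theorem young {c : ℝ} (hc : c ≠ 0) {g : ℝ → ℂ} (hg : Continuous g) (i1 : Integrable g)
    (i2 : Integrable fun t => ‖g t‖ ^ 2) :
    Integrable (fun γ : ℝ => ‖∫ t : ℝ, g t / ((c : ℂ) + (t : ℂ) * I - (γ : ℂ) * I) ^ 3‖ ^ 2) ∧
    ∫ γ : ℝ, ‖∫ t : ℝ, g t / ((c : ℂ) + (t : ℂ) * I - (γ : ℂ) * I) ^ 3‖ ^ 2 ≤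
      Real.pi ^ 2 / c ^ 4 * ∫ t : ℝ, ‖g t‖ ^ 2 := by
  have hc2 : 0 < Real.pi / c ^ 2 := by positivity
  have kc := kap_continuous hc
  -- pointwise bound
  have key : ∀ γ : ℝ, ‖∫ t : ℝ, g t / ((c : ℂ) + (t : ℂ) * I - (γ : ℂ) * I) ^ 3‖ ^ 2 ≤
      Real.pi / c ^ 2 * ∫ t : ℝ, kap c (γ - t) * ‖g t‖ ^ 2 := by
    intro γ
    have kcg : Continuous fun t : ℝ => kap c (γ - t) := kc.comp (continuous_const.sub continuous_id)
    have j0 : Integrable fun t : ℝ => kap c (γ - t) := (kap_integrable hc).comp_sub_left γ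
    have m0 : ∫ t : ℝ, kap c (γ - t) = Real.pi / c ^ 2 := by
      rw [integral_sub_left_eq_self (kap c) volume γ, kap_integral hc]
    have kb : ∀ t : ℝ, ‖kap c (γ - t)‖ ≤ |c|⁻¹ * (c ^ 2)⁻¹ := fun t => by
      rw [Real.norm_of_nonneg (kap_nonneg _ _)]; exact kap_bdd _
    have j1 : Integrable fun t : ℝ => kap c (γ - t) * ‖g t‖ :=
      i1.norm.bdd_mul kcg.aestronglyMeasurable (Eventually.of_forall kb)
    have j2 : Integrable fun t : ℝ => kap c (γ - t) * ‖g t‖ ^ 2 :=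
      i2.bdd_mul kcg.aestronglyMeasurable (Eventually.of_forall kb)
    have h1 : ‖∫ t : ℝ, g t / ((c : ℂ) + (t : ℂ) * I - (γ : ℂ) * I) ^ 3‖ ≤ ∫ t : ℝ, kap c (γ - t) * ‖g t‖ := by
      refine norm_integral_le_of_norm_le j1 (Eventually.of_forall fun t => ?_)
      rw [div_eq_mul_inv, norm_mul, mul_comm]
      exact mul_le_mul_of_nonneg_right (ker_norm hc t γ) (norm_nonneg _)
    have h2 := cs (fun t => kap_nonneg c (γ - t)) hc2 j0 m0 j1 j2
    exact (pow_le_pow_left₀ (norm_nonneg _) h1 2).trans h2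
  -- the convolution
  have cv : ∀ γ : ℝ, ((fun t => ‖g t‖ ^ 2) ⋆[ContinuousLinearMap.mul ℝ ℝ, volume] (kap c)) γ =
      ∫ t : ℝ, kap c (γ - t) * ‖g t‖ ^ 2 := by
    intro γ
    rw [convolution_def]
    refine integral_congr_ae (Eventually.of_forall fun t => ?_)
    simp only [ContinuousLinearMap.mul_apply']
    ring
  have ci : Integrable fun γ : ℝ => ∫ t : ℝ, kap c (γ - t) * ‖g t‖ ^ 2 := by
    have h1 := i2.integrable_convolution (ContinuousLinearMap.mul ℝ ℝ) (kap_integrable hc)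
    exact h1.congr (Eventually.of_forall cv)
  have cI : ∫ γ : ℝ, ∫ t : ℝ, kap c (γ - t) * ‖g t‖ ^ 2 = (∫ t : ℝ, ‖g t‖ ^ 2) * (Real.pi / c ^ 2) := by
    have h1 := integral_convolution (L := ContinuousLinearMap.mul ℝ ℝ) i2 (kap_integrable hc)
    rw [kap_integral hc] at h1
    simp only [ContinuousLinearMap.mul_apply'] at h1
    rw [← h1]
    exact integral_congr_ae (Eventually.of_forall fun γ => (cv γ).symm)
  have meas : AEStronglyMeasurable (fun γ : ℝ => ∫ t : ℝ, g t / ((c : ℂ) + (t : ℂ) * I - (γ : ℂ) * I) ^ 3) volume := by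
    have h1 : Continuous fun γ : ℝ => ∫ t : ℝ, g t / ((c : ℂ) + (t : ℂ) * I - (γ : ℂ) * I) ^ 3 := by
      refine continuous_of_dominated (bound := fun t => (|c|⁻¹ * (c ^ 2)⁻¹) * ‖g t‖) (fun γ => ?_) (fun γ => ?_) ?_ ?_
      · refine (hg.div (by fun_prop) fun t => pow_ne_zero _ (den_ne hc t γ)).aestronglyMeasurable
      · refine Eventually.of_forall fun t => ?_
        rw [div_eq_mul_inv, norm_mul, mul_comm]
        exact mul_le_mul_of_nonneg_right ((ker_norm hc t γ).trans (kap_bdd _)) (norm_nonneg _)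
      · exact i1.norm.const_mul _
      · refine Eventually.of_forall fun t => ?_
        exact continuous_const.div (by fun_prop) fun γ => pow_ne_zero _ (den_ne hc t γ)
    exact h1.aestronglyMeasurable
  have I0 : Integrable (fun γ : ℝ => ‖∫ t : ℝ, g t / ((c : ℂ) + (t : ℂ) * I - (γ : ℂ) * I) ^ 3‖ ^ 2) := by
    refine (ci.const_mul (Real.pi / c ^ 2)).mono' (meas.norm.pow 2) (Eventually.of_forall fun γ => ?_)
    rw [Real.norm_of_nonneg (by positivity)]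
    exact key γ
  refine ⟨I0, ?_⟩
  calc ∫ γ : ℝ, ‖∫ t : ℝ, g t / ((c : ℂ) + (t : ℂ) * I - (γ : ℂ) * I) ^ 3‖ ^ 2
      ≤ ∫ γ : ℝ, Real.pi / c ^ 2 * ∫ t : ℝ, kap c (γ - t) * ‖g t‖ ^ 2 :=
        integral_mono I0 (ci.const_mul _) key
    _ = Real.pi / c ^ 2 * ((∫ t : ℝ, ‖g t‖ ^ 2) * (Real.pi / c ^ 2)) := by
        rw [integral_const_mul, cI]
    _ = Real.pi ^ 2 / c ^ 4 * ∫ t : ℝ, ‖g t‖ ^ 2 := by
        field_simp

end Pool.Agent.H91.SZ2
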