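import Pool.Agent.H82.SZ2.Defs
import Pool.Agent.H53.SZ2.JF1
import Pool.Agent.H91.SZ2.Yg

/-!
# MP_103a5c SimpleZeros v2, block JF: second derivative on the imaginary axis
-/

set_option autoImplicit false

open Complex MeasureTheory Filter Topology Set

namespace Pool.Agent.H91.SZ2

open Pool.Agent.H53.SZC (ln SD)
open Pool.Agent.H53.SZ2 (jf1)

theorem sq_integrable {n : ℕ} {x1 x2 K : ℝ} {f : ℂ → ℂ} (h : SD n x1 x2 K f) (hn : 1 ≤ n) {x : ℝ}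
    (h1 : x1 ≤ x) (h2 : x ≤ x2) : Integrable fun t : ℝ => ‖f (ln x t)‖ ^ 2 := by
  have i1 : Integrable fun t : ℝ => f (ln x t) := h.integrable hn h1 h2
  have hK : 0 ≤ K := h.nonneg (h1.trans h2)
  have hb : ∀ t : ℝ, ‖f (ln x t)‖ ≤ K := by
    intro t
    have h3 := h.bd (ln x t) (by rw [Pool.Agent.H53.SZC.ln_re]; exact h1) (by rw [Pool.Agent.H53.SZC.ln_re]; exact h2)
    refine h3.trans (div_le_self hK (one_le_pow₀ ?_))
    nlinarith [sq_nonneg (ln x t).im]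
  have h4 : (fun t : ℝ => ‖f (ln x t)‖ ^ 2) = fun t : ℝ => ‖f (ln x t)‖ * ‖f (ln x t)‖ := by
    funext t; ring
  rw [h4]
  refine i1.norm.bdd_mul (c := K) (h.continuous h1 h2).norm.aestronglyMeasurable (Eventually.of_forall fun t => ?_)
  rw [norm_norm]
  exact hb t

theorem jf : H82SZ.JFstat := by
  intro c K f hc h
  have hcc : -c ≤ c := by linarith
  have hc0 : c ≠ 0 := hc.ne'
  have hc1 : -c ≠ 0 := neg_ne_zero.2 hc0
  have hπ : 0 < Real.pi := Real.pi_pos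
  obtain ⟨A1, A2⟩ := young hc0 (h.continuous hcc le_rfl) (h.integrable (by norm_num) hcc le_rfl)
    (sq_integrable h (by norm_num) hcc le_rfl)
  obtain ⟨B1, B2⟩ := young hc1 (h.continuous le_rfl hcc) (h.integrable (by norm_num) le_rfl hcc)
    (sq_integrable h (by norm_num) le_rfl hcc)
  set A : ℝ → ℂ := fun γ => ∫ t : ℝ, f (ln c t) / ((c : ℂ) + (t : ℂ) * I - (γ : ℂ) * I) ^ 3 with hA
  set B : ℝ → ℂ := fun γ => ∫ t : ℝ, f (ln (-c) t) / (((-c : ℝ) : ℂ) + (t : ℂ) * I - (γ : ℂ) * I) ^ 3 with hB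
  have e : ∀ γ : ℝ, deriv (deriv f) (ln 0 γ) = (Real.pi : ℂ)⁻¹ * (A γ - B γ) := fun γ => jf1 hc h (by norm_num) γ
  have bd : ∀ γ : ℝ, ‖deriv (deriv f) (ln 0 γ)‖ ^ 2 ≤ 2 / Real.pi ^ 2 * (‖A γ‖ ^ 2 + ‖B γ‖ ^ 2) := by
    intro γ
    rw [e γ, norm_mul, norm_inv, Complex.norm_real, Real.norm_of_nonneg hπ.le, mul_pow]
    have h1 : ‖A γ - B γ‖ ^ 2 ≤ 2 * (‖A γ‖ ^ 2 + ‖B γ‖ ^ 2) := by
      have h2 := norm_sub_le (A γ) (B γ)
      have h3 : ‖A γ - B γ‖ ^ 2 ≤ (‖A γ‖ + ‖B γ‖) ^ 2 := pow_le_pow_left₀ (norm_nonneg _) h2 2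
      nlinarith [sq_nonneg (‖A γ‖ - ‖B γ‖)]
    have h4 : Real.pi⁻¹ ^ 2 * ‖A γ - B γ‖ ^ 2 ≤ Real.pi⁻¹ ^ 2 * (2 * (‖A γ‖ ^ 2 + ‖B γ‖ ^ 2)) :=
      mul_le_mul_of_nonneg_left h1 (by positivity)
    refine h4.trans (le_of_eq ?_)
    field_simp
  have meas : AEStronglyMeasurable (fun γ : ℝ => deriv (deriv f) (ln 0 γ)) volume := by
    have hm1 : Measurable (deriv (deriv f)) := measurable_deriv _
    exact (hm1.comp (Pool.Agent.H53.SZC.continuous_ln 0).measurable).aestronglyMeasurable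
  have I0 : Integrable (fun γ : ℝ => ‖deriv (deriv f) (ln 0 γ)‖ ^ 2) := by
    refine ((A1.add B1).const_mul (2 / Real.pi ^ 2)).mono' (meas.norm.pow 2) (Eventually.of_forall fun γ => ?_)
    rw [Real.norm_of_nonneg (by positivity)]
    exact bd γ
  refine ⟨I0, ?_⟩
  have h5 : H82SZ.J2 (deriv (deriv f)) 0 ≤ ∫ γ : ℝ, 2 / Real.pi ^ 2 * (‖A γ‖ ^ 2 + ‖B γ‖ ^ 2) :=
    integral_mono I0 ((A1.add B1).const_mul (2 / Real.pi ^ 2)) bd
  rw [integral_const_mul, integral_add A1 B1] at h5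
  have h6 : (∫ t : ℝ, ‖f (ln c t)‖ ^ 2) = H82SZ.J2 f c := rfl
  have h7 : (∫ t : ℝ, ‖f (ln (-c) t)‖ ^ 2) = H82SZ.J2 f (-c) := rfl
  rw [h6] at A2
  rw [h7] at B2
  have hJ1 : 0 ≤ H82SZ.J2 f c := integral_nonneg fun t => sq_nonneg _
  have hJ2 : 0 ≤ H82SZ.J2 f (-c) := integral_nonneg fun t => sq_nonneg _
  have e4 : (-c) ^ 4 = c ^ 4 := by ring
  rw [e4] at B2
  have h8 : 2 / Real.pi ^ 2 * (∫ γ : ℝ, ‖A γ‖ ^ 2) + 2 / Real.pi ^ 2 * (∫ γ : ℝ, ‖B γ‖ ^ 2) ≤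
      2 / c ^ 4 * (H82SZ.J2 f c + H82SZ.J2 f (-c)) := by
    have h9 := mul_le_mul_of_nonneg_left (add_le_add A2 B2) (show 0 ≤ 2 / Real.pi ^ 2 by positivity)
    rw [mul_add] at h9
    refine h9.trans (le_of_eq ?_)
    field_simp
  rw [mul_add] at h5
  refine (h5.trans h8).trans (mul_le_mul_of_nonneg_right ?_ (add_nonneg hJ1 hJ2))
  exact div_le_div_of_nonneg_right (by norm_num) (by positivity)

end Pool.Agent.H91.SZ2
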